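import Pool.Agent.Q82.QD.Stm

/-! Project QD of helper82 (MP_af5b7f_an), parts SMF and EPS2. -/

set_option autoImplicit false

open MeasureTheory Filter Topology Real Set
open Pool.Agent.Q82.QC (E mol)
open Pool.Agent.Q82.QD

namespace Pool.Agent.Q278.QD

/-- Smoothness of the profile, by bootstrapping. -/
theorem smf (h1 : S_LSM) (h2 : S_LOP) : S_SMF := by
  intro F hF n
  obtain ⟨hc, he, -⟩ := hF
  have hfc : Continuous (fun t => 6 * Real.exp (4 * F t)) := by fun_prop
  have hL1 : Continuous (Lop fun t => 6 * Real.exp (4 * F t)) := (h2 _ hfc).1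
  induction n with
  | zero =>
    rw [Nat.cast_zero]
    exact contDiffOn_zero.2 hc.continuousOn
  | succ n ih =>
    have hf : ContDiffOn ℝ n (fun t => 6 * Real.exp (4 * F t)) (Ici 0) :=
      contDiffOn_const.mul ((contDiffOn_const.mul ih).exp)
    have hA := h1 _ hfc n hf
    have hB := h1 _ hL1 (n + 1) hA
    have hC : ContDiffOn ℝ (n + 1 : ℕ) (fun s => Real.log 2 - (1 + qq) * s +
        Lop (Lop (fun t => 6 * Real.exp (4 * F t))) s) (Ici 0) :=
      (contDiffOn_const.sub (contDiffOn_const.mul contDiffOn_id)).add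
        (hB.of_le (by exact_mod_cast Nat.le_succ _))
    exact hC.congr fun s hs => he s hs

/-- Choice of the regularisation. -/
theorem eps2 (h1 : S_WL2) (h2 : Pool.Agent.Q82.QC.S_MOL) : S_EPS2 := by
  intro F hF a N hN hg hgc η hη
  have hW : Continuous (W F a N) := ((h1 F hF a N hN).1 0).continuous
  have hE : Continuous fun x => Real.exp (4 * W F a N x) := by fun_prop
  obtain ⟨x₁, -, hx₁⟩ := (isCompact_closedBall (0 : E) (3 / 2)).exists_isMinOn
    ⟨0, by simp; norm_num⟩ hE.continuousOn
  obtain ⟨e0, he0, h⟩ := h2 _ hg hgc (η * (6 * Real.exp (4 * W F a N x₁))) (by positivity)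
  refine ⟨min (e0 / 2) 1, by positivity, min_le_right _ _, fun x hx => ?_⟩
  refine (h _ (by positivity) (lt_of_le_of_lt (min_le_left _ _) (by linarith)) x).trans ?_
  have h3 : Real.exp (4 * W F a N x₁) ≤ Real.exp (4 * W F a N x) :=
    hx₁ (show x ∈ Metric.closedBall (0 : E) (3 / 2) by simpa using hx)
  exact mul_le_mul_of_nonneg_left (by linarith) hη.le

end Pool.Agent.Q278.QD
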